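import Pool.Agent.H.MP_46dc5d_co.OA

namespace Pool.Agent.H.MP_ef1b96_co
open Function Fintype Pool.Agent.H.MP_46dc5d_co

variable {R C R' C' : Type}

/-- a pair of orthogonal latin rectangles -/
def L (A B : R → C → C) : Prop := (∀ i, Injective (A i)) ∧ (∀ i, Injective (B i)) ∧
  (∀ j i i', A i j = A i' j → i = i') ∧ (∀ j i i', B i j = B i' j → i = i') ∧
  ∀ i i' j j', A i j = A i' j' → B i j = B i' j' → i = i'

/-- with a column where no new pair fits -/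
def V (R C : Type) : Prop := ∃ A B : R → C → C, L A B ∧ ∃ j, ∀ a b,
  (∃ i, A i j = a) ∨ (∃ i, B i j = b) ∨ ∃ i c, A i c = a ∧ B i c = b

def M (R C : Type) : Prop := ∃ A B : R → C → C, L A B ∧ ¬ ∃ a b : C → C,
  Injective a ∧ Injective b ∧ (∀ i j, a j ≠ A i j ∧ b j ≠ B i j) ∧
  ∀ i j j', (a j, b j) ≠ (A i j', B i j')

theorem V.m (h : V R C) : M R C := by
  obtain ⟨A, B, h, j, hj⟩ := h
  refine ⟨A, B, h, fun ⟨a, b, _, _, h1, h2⟩ => ?_⟩
  rcases hj (a j) (b j) with ⟨i, e⟩ | ⟨i, e⟩ | ⟨i, c, e, e'⟩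
  exacts [(h1 i j).1 e.symm, (h1 i j).2 e.symm, h2 i j c (by rw [e, e'])]

theorem L.tr {A B : R → C → C} (h : L A B) (e : R' → R) (he : Injective e) (f : C ≃ C') :
    L (fun i j => f (A (e i) (f.symm j))) fun i j => f (B (e i) (f.symm j)) :=
  ⟨fun _ _ _ k => f.symm.injective (h.1 _ (f.injective k)),
   fun _ _ _ k => f.symm.injective (h.2.1 _ (f.injective k)),
   fun _ _ _ k => he (h.2.2.1 _ _ _ (f.injective k)),
   fun _ _ _ k => he (h.2.2.2.1 _ _ _ (f.injective k)),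
   fun _ _ _ _ k k' => he (h.2.2.2.2 _ _ _ _ (f.injective k) (f.injective k'))⟩

theorem M.tr [Fintype R] [Fintype C] (h : M R C) {r n : ℕ} (hr : card R = r) (hn : card C = n) :
    M (Fin r) (Fin n) := by
  obtain ⟨A, B, h, h'⟩ := h
  let e := (equivFinOfCardEq hr).symm
  let f := equivFinOfCardEq hn
  refine ⟨_, _, h.tr e e.injective f, fun ⟨a, b, h1, h2, h3, h4⟩ => h'
    ⟨fun j => f.symm (a (f j)), fun j => f.symm (b (f j)),
      f.symm.injective.comp (h1.comp f.injective), f.symm.injective.comp (h2.comp f.injective),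
      fun i j => ⟨fun k => (h3 (e.symm i) (f j)).1 ?_, fun k => (h3 (e.symm i) (f j)).2 ?_⟩,
      fun i j j' k => h4 (e.symm i) (f j) (f j') ?_⟩⟩
  · simp [← k]
  · simp [← k]
  · rw [Prod.mk.injEq] at k
    simp [← k.1, ← k.2]

theorem L.sq [Finite C] {p q : C → C → C} (h : L p q) : (∀ c a, ∃ i, p i c = a) ∧
    (∀ c a, ∃ i, q i c = a) ∧ ∀ a b, ∃ i c, p i c = a ∧ q i c = b := by
  refine ⟨fun c => Finite.injective_iff_surjective.1 (h.2.2.1 c),
    fun c => Finite.injective_iff_surjective.1 (h.2.2.2.1 c), fun a b => ?_⟩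
  obtain ⟨⟨i, c⟩, e⟩ := (Finite.injective_iff_surjective
    (f := fun x : C × C => (p x.1 x.2, q x.1 x.2))).1 (fun ⟨i, c⟩ ⟨i', c'⟩ e => by
      rw [Prod.mk.injEq] at e
      obtain rfl := h.2.2.2.2 _ _ _ _ e.1 e.2
      exact Prod.ext rfl (h.1 _ e.1)) (a, b)
  exact ⟨i, c, Prod.mk.inj e⟩

/-- operations out of a covering array -/
theorem ext {α I : Type} [Fintype α] [Fintype I] (g : I → Fin 4 → α) (h2 : card I = card α ^ 2)
    (h3 : ∀ i j, i ≠ j → ∀ a b, ∃ r, g r i = a ∧ g r j = b) :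
    ∃ p q : α → α → α, L p q ∧ ∀ x y, ∃ r, g r 0 = x ∧ g r 1 = y ∧ g r 2 = p x y ∧ g r 3 = q x y := by
  have hb : ∀ i j, i ≠ j → Injective fun r => (g r i, g r j) := fun i j hij =>
    ((bijective_iff_surjective_and_card _).2 ⟨fun ⟨a, b⟩ => by
      obtain ⟨r, r1, r2⟩ := h3 i j hij a b
      exact ⟨r, by simp [r1, r2]⟩, by simp [h2, sq]⟩).1
  choose r r0 r1 using h3 0 1 (by decide)
  have key : ∀ i j, i ≠ j → ∀ x y x' y', g (r x y) i = g (r x' y') i →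
      g (r x y) j = g (r x' y') j → x = x' ∧ y = y' := by
    intro i j hij x y x' y' e1 e2
    have : r x y = r x' y' := hb i j hij (Prod.ext e1 e2)
    exact ⟨by rw [← r0 x y, this, r0], by rw [← r1 x y, this, r1]⟩
  exact ⟨fun x y => g (r x y) 2, fun x y => g (r x y) 3,
    ⟨fun x y y' h => (key 0 2 (by decide) x y x y' (by rw [r0, r0]) h).2,
    fun x y y' h => (key 0 3 (by decide) x y x y' (by rw [r0, r0]) h).2,
    fun y x x' h => (key 1 2 (by decide) x y x' y (by rw [r1, r1]) h).1,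
    fun y x x' h => (key 1 3 (by decide) x y x' y (by rw [r1, r1]) h).1,
    fun x x' y y' h h' => (key 2 3 (by decide) x y x' y' h h').1⟩,
    fun x y => ⟨r x y, r0 x y, r1 x y, rfl, rfl⟩⟩

theorem mols (C : Type) [Fintype C] (h : 7 ≤ card C) : ∃ p q : C → C → C, L p q := by
  obtain ⟨α, I, _, _, g, h1, h2, h3⟩ := Mols.all (card C) (by omega) (by omega)
  obtain ⟨p, q, h, -⟩ := ext g (by rw [h1, h2]) h3
  let f := equivOfCardEq h1
  exact ⟨_, _, h.tr f.symm f.symm.injective f⟩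

theorem low (r s : ℕ) (h7 : 7 ≤ r) (h1 : r ≤ s) (h2 : s < 2 * r) : M (Fin r) (Fin r ⊕ Fin s) := by
  obtain ⟨p, q, h⟩ := mols (Fin r) (by simpa)
  obtain ⟨p', q', h'⟩ := mols (Fin s) (by simp; omega)
  let e := Fin.castLE h1
  have he : Injective e := Fin.castLE_injective h1
  refine ⟨fun i => Sum.map (p i) (p' (e i)), fun i => Sum.map (q i) (q' (e i)),
    ⟨fun i => (h.1 _).sumMap (h'.1 _), fun i => (h.2.1 _).sumMap (h'.2.1 _), ?_, ?_, ?_⟩,
    fun ⟨a, b, ha, hb, h3, h4⟩ => ?_⟩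
  · rintro (j | j) i i' k
    exacts [h.2.2.1 _ _ _ (Sum.inl.inj k), he (h'.2.2.1 _ _ _ (Sum.inr.inj k))]
  · rintro (j | j) i i' k
    exacts [h.2.2.2.1 _ _ _ (Sum.inl.inj k), he (h'.2.2.2.1 _ _ _ (Sum.inr.inj k))]
  · rintro i i' (j | j) (j' | j') k k'
    exacts [h.2.2.2.2 _ _ _ _ (Sum.inl.inj k) (Sum.inl.inj k'), (nomatch k), (nomatch k),
      he (h'.2.2.2.2 _ _ _ _ (Sum.inr.inj k) (Sum.inr.inj k'))]
  obtain ⟨s1, s2, s3⟩ := h.sq
  choose a' ha' using Finite.injective_iff_surjective.1 ha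
  choose b' hb' using Finite.injective_iff_surjective.1 hb
  have k1 : ∀ x y, Sum.inl x ≠ a' (.inl y) := fun x y k => by
    obtain ⟨i, e⟩ := s1 x y
    exact (h3 i (.inl x)).1 (by rw [k, ha', ← k, ← e]; rfl)
  have k2 : ∀ x y, Sum.inl x ≠ b' (.inl y) := fun x y k => by
    obtain ⟨i, e⟩ := s2 x y
    exact (h3 i (.inl x)).2 (by rw [k, hb', ← k, ← e]; rfl)
  have k3 : ∀ x y, a' (.inl x) ≠ b' (.inl y) := fun x y k => by
    obtain ⟨i, c, e, e'⟩ := s3 x y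
    exact h4 i (a' (.inl x)) (.inl c) (by rw [ha', k, hb', ← e, ← e']; rfl)
  have := card_le_of_injective (Sum.elim Sum.inl (Sum.elim (a' ∘ Sum.inl) (b' ∘ Sum.inl)))
    (Sum.inl_injective.sumElim (((RightInverse.injective ha').comp Sum.inl_injective).sumElim
      ((RightInverse.injective hb').comp Sum.inl_injective) k3) (by
        rintro x (y | y)
        exacts [k1 x y, k2 x y]))
  simp at this
  omega

def sw : Option C ⊕ C → Option C ⊕ C
  | .inl none => .inl none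
  | .inl (some w) => .inr w
  | .inr w => .inl (some w)

theorem sw2 (c : Option C ⊕ C) : sw (sw c) = c := by rcases c with (_ | _) | _ <;> rfl

theorem one (s : ℕ) (h7 : 7 ≤ s) : V (Option (Fin s)) (Option (Fin s) ⊕ Fin s) := by
  obtain ⟨p, q, h⟩ := mols (Option (Fin s)) (by simp; omega)
  obtain ⟨p', q', h'⟩ := mols (Fin s) (by simpa)
  obtain ⟨u, v, huv⟩ : ∃ u v : Fin s, u ≠ v := ⟨⟨0, by omega⟩, ⟨1, by omega⟩, by simp⟩
  have hs : ∀ (P : Prop) [Decidable P], Injective fun c : Option (Fin s) ⊕ Fin s =>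
      if P then sw c else c := fun P _ => by
    split_ifs
    exacts [LeftInverse.injective sw2, injective_id]
  obtain ⟨s1, s2, -⟩ := h.sq
  obtain ⟨-, -, s3⟩ := h'.sq
  obtain ⟨h1, h2, h3, h4, h5⟩ := h
  obtain ⟨h1', h2', h3', h4', h5'⟩ := h'
  refine ⟨fun i c => Sum.map (p i) (p' (i.getD u)) (if i.getD v = v then sw c else c),
    fun i c => Sum.map (q i) (q' (i.getD v)) (if i = some v then sw c else c),
    ⟨fun i => ((h1 _).sumMap (h1' _)).comp (hs _), fun i => ((h2 _).sumMap (h2' _)).comp (hs _),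
    ?_, ?_, ?_⟩, .inl none, ?_⟩
  · rintro ((_ | j) | j) (_ | i) (_ | i') k <;> simp only [Option.getD] at k <;>
      (try split_ifs at k) <;> (try simp only [sw, Sum.map_inl, Sum.map_inr, Sum.inl.injEq,
        Sum.inr.injEq, reduceCtorEq] at k) <;> first | rfl | exact h3 _ _ _ k | grind
  · rintro ((_ | j) | j) (_ | i) (_ | i') k <;>
      simp only [Option.getD, reduceCtorEq, Option.some.injEq] at k <;>
      (try split_ifs at k) <;> (try simp only [sw, Sum.map_inl, Sum.map_inr, Sum.inl.injEq,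
        Sum.inr.injEq, reduceCtorEq] at k) <;> first | rfl | exact h4 _ _ _ k | grind
  · rintro (_ | i) (_ | i') ((_ | j) | j) ((_ | j') | j') k k' <;>
      simp only [Option.getD, reduceCtorEq, Option.some.injEq] at k k' <;>
      (try split_ifs at k k') <;> (try simp only [sw, Sum.map_inl, Sum.map_inr, Sum.inl.injEq,
        Sum.inr.injEq, reduceCtorEq] at k k') <;> first | rfl | exact h5 _ _ _ _ k k' | grind
  · rintro (a | a) b
    · obtain ⟨i, e⟩ := s1 none a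
      exact .inl ⟨i, by simp [sw, e]⟩
    rcases b with b | b
    · obtain ⟨i, e⟩ := s2 none b
      exact .inr (.inl ⟨i, by simp [sw, e]⟩)
    obtain ⟨i, c, e, e'⟩ := s3 a b
    refine .inr (.inr ⟨some i, if i = v then sw (.inr c) else .inr c, ?_⟩)
    by_cases k : i = v <;> simp [k, sw2, ← e, ← e']

theorem mk (n r j : ℕ) (A B : ℕ → ℕ → ℕ) (hj : j < n)
    (h0 : ∀ i < r, ∀ c < n, A i c < n ∧ B i c < n)
    (h1 : ∀ i < r, ∀ c < n, ∀ c' < n, A i c = A i c' ∨ B i c = B i c' → c = c')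
    (h2 : ∀ i < r, ∀ i' < r, ∀ c < n, A i c = A i' c ∨ B i c = B i' c → i = i')
    (h3 : ∀ i < r, ∀ i' < r, ∀ c < n, ∀ c' < n, A i c = A i' c' → B i c = B i' c' → i = i')
    (h4 : ∀ a < n, ∀ b < n, (∃ i < r, A i j = a) ∨ (∃ i < r, B i j = b) ∨
      (∃ i < r, ∀ c < n, A i c = a → B i c = b) ∨ ∃ i < r, ∃ c < n, A i c = a ∧ B i c = b) :
    V (Fin r) (Fin n) := by
  have k : ∀ i : Fin r, Injective fun c : Fin n => (⟨A i c, (h0 _ i.2 _ c.2).1⟩ : Fin n) :=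
    fun i c c' k => Fin.ext (h1 _ i.2 _ c.2 _ c'.2 (.inl (Fin.mk.inj k)))
  refine ⟨fun i c => ⟨A i c, (h0 _ i.2 _ c.2).1⟩, fun i c => ⟨B i c, (h0 _ i.2 _ c.2).2⟩,
    ⟨k, fun i c c' k => Fin.ext (h1 _ i.2 _ c.2 _ c'.2 (.inr (Fin.mk.inj k))),
    fun c i i' k => Fin.ext (h2 _ i.2 _ i'.2 _ c.2 (.inl (Fin.mk.inj k))),
    fun c i i' k => Fin.ext (h2 _ i.2 _ i'.2 _ c.2 (.inr (Fin.mk.inj k))),
    fun i i' c c' k k' => Fin.ext (h3 _ i.2 _ i'.2 _ c.2 _ c'.2 (Fin.mk.inj k) (Fin.mk.inj k'))⟩,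
    ⟨j, hj⟩, fun a b => ?_⟩
  rcases h4 _ a.2 _ b.2 with ⟨i, hi, e⟩ | ⟨i, hi, e⟩ | ⟨i, hi, e⟩ | ⟨i, hi, c, hc, e, e'⟩
  · exact .inl ⟨⟨i, hi⟩, Fin.ext e⟩
  · exact .inr (.inl ⟨⟨i, hi⟩, Fin.ext e⟩)
  · obtain ⟨c, hc⟩ := Finite.injective_iff_surjective.1 (k ⟨i, hi⟩) a
    exact .inr (.inr ⟨⟨i, hi⟩, c, hc, Fin.ext (e _ c.2 (congrArg Fin.val hc))⟩)
  · exact .inr (.inr ⟨⟨i, hi⟩, ⟨c, hc⟩, Fin.ext e, Fin.ext e'⟩)

end Pool.Agent.H.MP_ef1b96_co
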