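import Pool.Agent.H.MP_ef1b96_co.B

namespace Pool.Agent.H.MP_ef1b96_co
open Function Fintype

def md (m x : ℕ) : ℕ := if x < m then x else x - m

theorem mdc (m x : ℕ) : x < m ∧ md m x = x ∨ m ≤ x ∧ md m x + m = x := by
  unfold md; split_ifs <;> omega

theorem srj {r : ℕ} {z : ℕ → ℕ} (h1 : ∀ i < r, z i < r)
    (h2 : ∀ i < r, ∀ i' < r, z i = z i' → i = i') (v : ℕ) (hv : v < r) : ∃ i < r, z i = v := by
  obtain ⟨i, e⟩ := (Finite.injective_iff_surjective
    (f := fun i : Fin r => (⟨z i, h1 _ i.2⟩ : Fin r))).1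
    (fun i i' e => Fin.ext (h2 _ i.2 _ i'.2 (Fin.mk.inj e))) ⟨v, hv⟩
  exact ⟨i, i.2, Fin.mk.inj e⟩

/-- cyclic rows, one of them (row `q`) switched -/
theorem cyc (n r q : ℕ) (z X : ℕ → ℕ) (hn : r < n) (h1 : ∀ i < r, z i < r)
    (h2 : ∀ i < r, ∀ i' < r, z i = z i' ∨ i + z i' = i' + z i ∨ i + z i' = i' + z i + n → i = i')
    (h3 : ∀ a < n, ∀ b < n, r ≤ a → r ≤ b → (∃ i < r, i ≠ q ∧ i + b = a + z i) ∨
      a + 1 = n ∧ b = r ∧ z q + 1 = r ∧ X 1 + 2 = n ∧ q < r)
    (h0 : X 0 = q)
    (h4 : ∀ c < n, X c = q ∨ r ≤ X c ∧ X c < n ∧ ∀ i < r, X c + z i ≠ i + z q ∧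
      X c + z i ≠ i + z q + n)
    (h5 : ∀ c < n, ∀ c' < n, c + X c = c' + X c' ∨ c + X c = c' + X c' + n → c = c') :
    V (Fin r) (Fin n) := by
  refine mk n r 0 (fun i c => md n (c + if i = q then X c else i)) (fun i c => md n (c + z i))
    (by omega) (fun i hi c hc => ?_) (fun i hi c hc c' hc' => ?_) (fun i hi i' hi' c hc => ?_)
    (fun i hi i' hi' c hc c' hc' => ?_) fun a ha b hb => ?_
  · have := h1 i hi
    have := mdc n (c + if i = q then X c else i)
    have := mdc n (c + z i)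
    have := h4 c hc
    split_ifs at * <;> omega
  · have := h1 i hi
    have := mdc n (c + if i = q then X c else i)
    have := mdc n (c + z i)
    have := mdc n (c' + if i = q then X c' else i)
    have := mdc n (c' + z i)
    have := h5 c hc c' hc'
    have := h5 c' hc' c hc
    split_ifs at * <;> omega
  · have := h1 i hi
    have := h1 i' hi'
    have := mdc n (c + if i = q then X c else i)
    have := mdc n (c + z i)
    have := mdc n (c + if i' = q then X c else i')
    have := mdc n (c + z i')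
    have := h2 i hi i' hi'
    have := h4 c hc
    split_ifs at * <;> omega
  · have := h1 i hi
    have := h1 i' hi'
    have := mdc n (c + if i = q then X c else i)
    have := mdc n (c + z i)
    have := mdc n (c' + if i' = q then X c' else i')
    have := mdc n (c' + z i')
    have := h2 i hi i' hi'
    have := h2 i' hi' i hi
    have := (h4 c hc).imp_right fun h => And.intro (And.intro h.1 h.2.1) (h.2.2 i' hi')
    have := (h4 c' hc').imp_right fun h => And.intro (And.intro h.1 h.2.1) (h.2.2 i hi)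
    by_cases k : i = q <;> by_cases k' : i' = q
    · omega
    · subst k
      simp only [if_neg k', if_true] at *
      omega
    · subst k'
      simp only [if_neg k, if_true] at *
      omega
    · simp only [if_neg k, if_neg k'] at *
      omega
  by_cases k : a < r
  · refine .inl ⟨a, k, ?_⟩
    have := mdc n (0 + if a = q then X 0 else a)
    split_ifs at * <;> omega
  by_cases k' : b < r
  · obtain ⟨i, hi, e⟩ := srj h1 (fun i hi i' hi' e => h2 i hi i' hi' (.inl e)) b k'
    refine .inr (.inl ⟨i, hi, ?_⟩)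
    have := mdc n (0 + z i)
    omega
  rcases h3 a ha b hb (by omega) (by omega) with ⟨i, hi, e, e'⟩ | e
  · refine .inr (.inr (.inl ⟨i, hi, fun c hc => ?_⟩))
    have := h1 i hi
    have := mdc n (c + i)
    have := mdc n (c + z i)
    simp only [e, if_false]
    omega
  · refine .inr (.inr (.inr ⟨q, by omega, 1, by omega, ?_⟩))
    have := mdc n (1 + X 1)
    have := mdc n (1 + z q)
    simp only [if_true]
    omega

theorem codd (n m : ℕ) (h1 : 2 * m + 1 < n) (h2 : n ≤ 3 * m + 2) : V (Fin (2 * m + 1)) (Fin n) := by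
  refine cyc n _ (2 * m + 1) (fun i => if i < m then m - 1 - i else 3 * m - i)
    (fun _ => 2 * m + 1) h1 (fun i hi => ?_) (fun i hi i' hi' => ?_) (fun a ha b hb ha' hb' => .inl ?_)
    rfl (fun _ _ => .inl rfl) (by omega)
  · split_ifs <;> omega
  · split_ifs <;> omega
  by_cases k : (a + b + m) % 2 = 0
  · refine ⟨(3 * m + a - b) / 2, ?_⟩
    split_ifs <;> omega
  · refine ⟨(m + a - b - 1) / 2, ?_⟩
    split_ifs <;> omega

/-- four reversed blocks of lengths `a, b, L, a + 1` -/
def zz (a b L i : ℕ) : ℕ := if i < a then 2 * a + b + L - i else if i < a + b then 2 * a + b - i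
  else if i < a + b + L then 2 * a + 2 * b + L - i else 2 * a + b + L - i

theorem zzc (a b L i : ℕ) : (i < a ∨ a + b + L ≤ i) ∧ zz a b L i = 2 * a + b + L - i ∨
    a ≤ i ∧ i < a + b ∧ zz a b L i = 2 * a + b - i ∨
    a + b ≤ i ∧ i < a + b + L ∧ zz a b L i = 2 * a + 2 * b + L - i := by
  unfold zz; split_ifs <;> omega

theorem cev (n r a b L q : ℕ) (X : ℕ → ℕ) (hr : r = 2 * a + b + L + 1) (hn : n = r + b + 1)
    (hb : 1 ≤ b) (hL : b < L) (hp : (L + b) % 2 = 1) (hq : q = if a = 0 then b else 0)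
    (ha : a = 0 → L = b + 1) (h : b % 2 = 0 ∧ L = b + 1 ∨ 2 * a < L ∧ 2 * L ≤ n)
    (h0 : X 0 = q) (h1 : X 1 + 2 = n)
    (h4 : ∀ c < n, X c = q ∨ X c + 2 = n ∨ X c + 1 = n ∧ L = b + 1)
    (h5 : ∀ c < n, ∀ c' < n, c + X c = c' + X c' ∨ c + X c = c' + X c' + n → c = c') :
    V (Fin r) (Fin n) := by
  have hz := zzc a b L q
  refine cyc n r q (zz a b L) X (by omega) (fun i hi => ?_) (fun i hi i' hi' => ?_)
    (fun x hx y hy hx' hy' => ?_) h0 (fun c hc => (h4 c hc).imp_right fun k =>
      ⟨by omega, by omega, fun i hi => ?_⟩) h5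
  · have := zzc a b L i
    omega
  · have := zzc a b L i
    have := zzc a b L i'
    omega
  · by_cases k : (x + y + b) % 2 = 1
    · have := zzc a b L ((2 * a + 2 * b + L + x - y) / 2)
      refine .inl ⟨(2 * a + 2 * b + L + x - y) / 2, ?_⟩
      split_ifs at hq <;> omega
    by_cases k' : x = y + b
    · right
      split_ifs at hq <;> omega
    · have := zzc a b L ((2 * a + b + x - y) / 2)
      refine .inl ⟨(2 * a + b + x - y) / 2, ?_⟩
      split_ifs at hq <;> omega
  · have := zzc a b L i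
    split_ifs at hq <;> omega

theorem cevn (n r : ℕ) (h1 : r + 2 ≤ n) (h2 : 2 * n ≤ 3 * r) (h3 : r % 2 = 0) (h4 : 12 ≤ n) :
    V (Fin r) (Fin n) := by
  obtain ⟨b, rfl⟩ : ∃ b, n = r + b + 1 := ⟨n - r - 1, by omega⟩
  by_cases k : b % 2 = 0 ∨ r = 2 * b + 2
  · obtain ⟨a, ha⟩ : ∃ a, r = 2 * a + 2 * b + 2 := ⟨r / 2 - b - 1, by omega⟩
    refine cev _ r a b (b + 1) _ (fun c => if c = 0 then (if a = 0 then b else 0) else
      if c < (if a = 0 then b else 0) + 2 then r + b - 1 else r + b) (by omega) rfl (by omega)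
      (by omega) (by omega) rfl (by omega) (by omega) rfl (by simp; omega) (fun c hc => ?_)
      fun c hc c' hc' => ?_ <;> split_ifs <;> omega
  · obtain ⟨a, ha⟩ : ∃ a, a = max 1 ((r - 3 * b) / 4) := ⟨_, rfl⟩
    refine cev _ r a b (r - b - 1 - 2 * a) 0 (fun c => if c % 2 = 0 then 0 else r + b - 1)
      (by omega) rfl (by omega) (by omega) (by omega) ?_ (by omega) (by omega) rfl (by simp; omega)
      (fun c hc => ?_) fun c hc c' hc' => ?_ <;> split_ifs <;> omega

end Pool.Agent.H.MP_ef1b96_co
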