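import Pool.Agent.H.MP_ef1b96_co.C

namespace Pool.Agent.H.MP_ef1b96_co
open Function Fintype

/-- swap `w` and `k + w` for `w < h` -/
def io (k h x : ℕ) : ℕ := if x < h then x + k else if k ≤ x then x - k else x

theorem ioc (k h x : ℕ) : x < h ∧ io k h x = x + k ∨ h ≤ x ∧ k ≤ x ∧ io k h x + k = x ∨
    h ≤ x ∧ x < k ∧ io k h x = x := by
  unfold io; split_ifs <;> omega

/-- shift by `v` modulo `k` below `k`, by `u` modulo `h` above -/
def sh (k h u v x : ℕ) : ℕ := if x < k then md k (x + v) else k + md h (x - k + u)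

theorem shc (k h u v x : ℕ) : x < k ∧ (x + v < k ∧ sh k h u v x = x + v ∨
    k ≤ x + v ∧ sh k h u v x + k = x + v) ∨ k ≤ x ∧ (x + u < k + h ∧ sh k h u v x = x + u ∨
    k + h ≤ x + u ∧ sh k h u v x + h = x + u) := by
  unfold sh md; split_ifs <;> omega

def F (k h e u v x : ℕ) : ℕ :=
  if e = 1 then sh k h u v (io k h x) else if e = 2 then io k h (sh k h u v x) else sh k h u v x

variable {k h e e' u u' v v' x y : ℕ}

theorem Flt (hk : h ≤ k) (hu : u < h) (hv : v < k) (hx : x < k + h) : F k h e u v x < k + h := by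
  have := ioc k h x
  have := shc k h u v x
  have := shc k h u v (io k h x)
  have := ioc k h (sh k h u v x)
  unfold F; split_ifs <;> omega

theorem shi (hu : u < h) (hv : v < k) (hx : x < k + h) (hy : y < k + h)
    (e : sh k h u v x = sh k h u v y) : x = y := by
  have := shc k h u v x
  have := shc k h u v y
  omega

theorem ioi (hk : h ≤ k) (hx : x < k + h) (hy : y < k + h) (e : io k h x = io k h y) : x = y := by
  have := ioc k h x
  have := ioc k h y
  omega

theorem Finj (hk : h ≤ k) (hu : u < h) (hv : v < k) (hx : x < k + h) (hy : y < k + h)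
    (E : F k h e u v x = F k h e u v y) : x = y := by
  have := ioc k h x
  have := ioc k h y
  have := shc k h u v x
  have := shc k h u v y
  unfold F at E; split_ifs at E
  · exact ioi hk hx hy (shi hu hv (by omega) (by omega) E)
  · exact shi hu hv hx hy (ioi hk (by omega) (by omega) E)
  · exact shi hu hv hx hy E

/-- when two such maps can agree somewhere -/
def Cl (k h e u v e' u' v' : ℕ) : Prop :=
  v = v' ∧ (e = e' ∨ e = 0 ∨ e' = 0 ∨ v + h < k ∨ h < v) ∨ e = e' ∧ u = u' ∨
  e ≠ e' ∧ e ≠ 0 ∧ e' ≠ 0 ∧ (u = v' ∨ u + k = v' + h ∨ u' = v ∨ u' + k = v + h)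

theorem sep (hk : h ≤ k) (he : e < 3) (he' : e' < 3) (hu : u < h) (hv : v < k) (hu' : u' < h)
    (hv' : v' < k) (hx : x < k + h) (E : F k h e u v x = F k h e' u' v' x) :
    Cl k h e u v e' u' v' := by
  have := ioc k h x
  unfold F at E; unfold Cl
  obtain rfl | rfl | rfl : e = 0 ∨ e = 1 ∨ e = 2 := by omega
  all_goals obtain rfl | rfl | rfl : e' = 0 ∨ e' = 1 ∨ e' = 2 := by omega
  all_goals simp only [OfNat.zero_ne_ofNat, OfNat.ofNat_ne_one, zero_ne_one, if_true, if_false] at E
  · have := shc k h u v x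
    have := shc k h u' v' x
    omega
  · have := shc k h u v x
    have := shc k h u' v' (io k h x)
    omega
  · have := shc k h u v x
    have := shc k h u' v' x
    have := ioc k h (sh k h u' v' x)
    omega
  · have := shc k h u v (io k h x)
    have := shc k h u' v' x
    omega
  · have := shc k h u v (io k h x)
    have := shc k h u' v' (io k h x)
    omega
  · have := shc k h u v (io k h x)
    have := shc k h u' v' x
    have := ioc k h (sh k h u' v' x)
    omega
  · have := shc k h u v x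
    have := shc k h u' v' x
    have := ioc k h (sh k h u v x)
    omega
  · have := shc k h u v x
    have := shc k h u' v' (io k h x)
    have := ioc k h (sh k h u v x)
    omega
  · have := shc k h u v x
    have := shc k h u' v' x
    have := ioi hk (by omega) (by omega) E
    omega

theorem shs {g g' : ℕ} (hu : u < h ∧ u' < h ∧ g < h) (hv : v < k ∧ v' < k ∧ g' < k)
    (hg : u + g = u' ∨ u + g = u' + h) (hg' : v + g' = v' ∨ v + g' = v' + k) (hx : x < k + h) :
    sh k h g g' (sh k h u v x) = sh k h u' v' x := by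
  have := shc k h u v x
  have := shc k h u' v' x
  have := shc k h g g' (sh k h u v x)
  omega

theorem ioo (hk : h ≤ k) (hx : x < k + h) : io k h (io k h x) = x := by
  have := ioc k h x
  have := ioc k h (io k h x)
  omega

/-- types: 0 plain, 1 columns swapped, 2 first symbols swapped, 3 second symbols swapped -/
theorem two (k h j : ℕ) (t a b g a' b' g' : ℕ → ℕ) (hk : h ≤ j) (hj : j < k)
    (h0 : ∀ i < k, t i < 4 ∧ (a i < h ∧ b i < h ∧ g i < h) ∧ (a' i < k ∧ b' i < k ∧ g' i < k) ∧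
      (a i + g i = b i ∨ a i + g i = b i + h) ∧ (a' i + g' i = b' i ∨ a' i + g' i = b' i + k) ∧
      (t i = 2 → j + a' i < k) ∧ (t i = 3 → j + b' i < k ∨ k + h ≤ j + b' i))
    (h1 : ∀ i < k, ∀ i' < k, Cl k h (t i % 3) (a i) (a' i) (t i' % 3) (a i') (a' i') → i = i')
    (h2 : ∀ i < k, ∀ i' < k, Cl k h (t i % 2 + t i / 3) (b i) (b' i) (t i' % 2 + t i' / 3)
      (b i') (b' i') → i = i')
    (h3 : ∀ i < k, ∀ i' < k, Cl k h (t i - 1) (g i) (g' i) (t i' - 1) (g i') (g' i') → i = i')
    (h4 : ∀ i < k, ∀ i' < k, a' i = a' i' ∨ b' i = b' i' → i = i')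
    (h5 : ∀ v < h, ∃ i < k, t i < 2 ∧ g i = v) : V (Fin k) (Fin (k + h)) := by
  have hh : h ≤ k := by omega
  have key : ∀ i < k, ∀ c < k + h, F k h (t i % 2 + t i / 3) (b i) (b' i) c =
      F k h (t i - 1) (g i) (g' i) (F k h (t i % 3) (a i) (a' i) c) := by
    intro i hi c hc
    obtain ⟨g0, g1, g2, g3, g4, -⟩ := h0 i hi
    have := ioc k h c
    have := shc k h (a i) (a' i) c
    obtain e | e | e | e : t i = 0 ∨ t i = 1 ∨ t i = 2 ∨ t i = 3 := by omega
    all_goals simp [F, e]
    · rw [shs g1 g2 g3 g4 hc]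
    · rw [shs g1 g2 g3 g4 (by omega)]
    · rw [ioo hh (by omega), shs g1 g2 g3 g4 hc]
    · rw [shs g1 g2 g3 g4 hc]
  refine mk (k + h) k j (fun i => F k h (t i % 3) (a i) (a' i))
    (fun i => F k h (t i % 2 + t i / 3) (b i) (b' i)) (by omega) (fun i hi c hc => ?_)
    (fun i hi c hc c' hc' => ?_) (fun i hi i' hi' c hc => ?_)
    (fun i hi i' hi' c hc c' hc' e e' => ?_) fun x hx y hy => ?_
  · obtain ⟨g0, g1, g2, -⟩ := h0 i hi
    exact ⟨Flt hh g1.1 g2.1 hc, Flt hh g1.2.1 g2.2.1 hc⟩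
  · obtain ⟨g0, g1, g2, -⟩ := h0 i hi
    exact fun e => e.elim (Finj hh g1.1 g2.1 hc hc') (Finj hh g1.2.1 g2.2.1 hc hc')
  · obtain ⟨g0, g1, g2, -⟩ := h0 i hi
    obtain ⟨f0, f1, f2, -⟩ := h0 i' hi'
    exact fun e => e.elim
      (fun e => h1 i hi i' hi' (sep hh (by omega) (by omega) g1.1 g2.1 f1.1 f2.1 hc e))
      fun e => h2 i hi i' hi' (sep hh (by omega) (by omega) g1.2.1 g2.2.1 f1.2.1 f2.2.1 hc e)
  · obtain ⟨g0, g1, g2, -⟩ := h0 i hi
    obtain ⟨f0, f1, f2, -⟩ := h0 i' hi'
    rw [key i hi c hc, key i' hi' c' hc', e] at e'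
    exact h3 i hi i' hi' (sep hh (by omega) (by omega) g1.2.2 g2.2.2 f1.2.2 f2.2.2
      (Flt hh f1.1 f2.1 hc') e')
  have := ioc k h j
  by_cases hx' : x < k
  · have := mdc k (x + k - j)
    obtain ⟨i, hi, e⟩ := srj (fun i hi => (h0 i hi).2.2.1.1)
      (fun i hi i' hi' e => h4 i hi i' hi' (.inl e)) (md k (x + k - j)) (by omega)
    refine .inl ⟨i, hi, ?_⟩
    obtain ⟨g0, -, g2, -, -, g5, -⟩ := h0 i hi
    have := shc k h (a i) (a' i) j
    have := shc k h (a i) (a' i) (io k h j)
    have := ioc k h (sh k h (a i) (a' i) j)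
    simp only [F]
    split_ifs <;> omega
  by_cases hy' : y < k
  · have := mdc k (y + k - j)
    obtain ⟨i, hi, e⟩ := srj (fun i hi => (h0 i hi).2.2.1.2.1)
      (fun i hi i' hi' e => h4 i hi i' hi' (.inr e)) (md k (y + k - j)) (by omega)
    refine .inr (.inl ⟨i, hi, ?_⟩)
    obtain ⟨g0, -, g2, -, -, -, g5⟩ := h0 i hi
    have := shc k h (b i) (b' i) j
    have := shc k h (b i) (b' i) (io k h j)
    have := ioc k h (sh k h (b i) (b' i) j)
    simp only [F]
    split_ifs <;> omega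
  have := mdc h (y + h - x)
  obtain ⟨i, hi, e, e'⟩ := h5 (md h (y + h - x)) (by omega)
  refine .inr (.inr (.inl ⟨i, hi, fun c hc E => ?_⟩))
  rw [key i hi c hc, E, e', show t i - 1 = 0 by omega]
  have := shc k h (md h (y + h - x)) (g' i) x
  simp only [F, OfNat.zero_ne_ofNat, zero_ne_one, if_false]
  omega

end Pool.Agent.H.MP_ef1b96_co
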