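import Pool.Agent.H.MP_ef1b96_co.T

namespace Pool.Agent.H.MP_ef1b96_co

theorem f1 (k h p m e : ℕ) (he : e ≤ 1) (hh : h + e = 2 * p + 1) (hk : k = h + 2 * m + e)
    (h1 : 1 ≤ 2 * m + e) (h2 : 2 * m + e < h) : V (Fin k) (Fin (k + h)) := by
  have : ∀ i < k, ∃ t a b g b' g' : ℕ,
      (i < m + e ∧ t = 2) ∧ a = i ∧ b = 2 * i + 1 ∧ g = i + 1 ∧ b' + 2 * m + e = 2 * i + k ∧
        g' + 2 * m + e = i + k ∨
      (m + e ≤ i ∧ i < 2 * m + e ∧ t = 3) ∧ a + m + e = p + i ∧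
        b + 4 * m + 3 * e = 2 * p + 2 * i ∧
        (g < h ∧ (g + 3 * m + 2 * e = p + i + h ∨ g + 3 * m + 2 * e = p + i)) ∧
        b' + 2 * m + e = 2 * i ∧ g' + 2 * m + e = i + k ∨
      (2 * m + e ≤ i ∧ i < 2 * m + e + p ∧ t = 0) ∧ a + 2 * m + e = i ∧
        b + 4 * m + 2 * e = 2 * i ∧ g + 2 * m + e = i ∧ b' + 2 * m + e = 2 * i ∧
        g' + 2 * m + e = i ∨
      (2 * m + e + p ≤ i ∧ t = 1) ∧ a + 2 * m + e = i ∧
        (b < h ∧ (b + 4 * m + 2 * e = 2 * i ∨ b + 4 * m + 2 * e + h = 2 * i)) ∧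
        g + 2 * m + e = i ∧
        (b' < k ∧ (b' + 2 * m + e = 2 * i ∨ b' + 2 * m + e + k = 2 * i)) ∧ g' + 2 * m + e = i := by
    intro i hi
    by_cases k1 : i < m + e
    · exact ⟨2, i, 2 * i + 1, i + 1, 2 * i + h, i + h, .inl (by omega)⟩
    by_cases k2 : i < 2 * m + e
    · have := mdc h (p + i + h - (3 * m + 2 * e))
      exact ⟨3, p + i - (m + e), 2 * p + 2 * i - (4 * m + 3 * e),
        md h (p + i + h - (3 * m + 2 * e)), 2 * i - (2 * m + e), i + h, .inr (.inl (by omega))⟩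
    obtain ⟨j, rfl⟩ : ∃ j, i = 2 * m + e + j := ⟨i - (2 * m + e), by omega⟩
    by_cases k3 : j < p
    · exact ⟨0, j, 2 * j, j, 2 * m + e + 2 * j, j, .inr (.inr (.inl (by omega)))⟩
    · have := mdc h (2 * j)
      have := mdc k (2 * m + e + 2 * j)
      exact ⟨1, j, md h (2 * j), j, md k (2 * m + e + 2 * j), j, .inr (.inr (.inr (by omega)))⟩
  choose! t a b g b' g' H using this
  obtain rfl : h = 2 * p + 1 - e := by omega
  refine two k _ (2 * p + 1 - e) t a b g (fun i => i) b' g' le_rfl (by omega) (fun i hi => ?_)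
    (fun i hi i' hi' => ?_) (fun i hi i' hi' => ?_) (fun i hi i' hi' => ?_)
    (fun i hi i' hi' => ?_) fun v hv => ⟨2 * m + e + v, by omega, ?_⟩
  all_goals obtain rfl | rfl : e = 0 ∨ e = 1 := by omega
  all_goals simp only [Nat.add_sub_cancel, Nat.sub_zero, Cl] at *
  iterate 2 rcases H i hi with h | h | h | h <;> omega
  iterate 2 rcases H i hi with ⟨h, h', -⟩ | ⟨h, h', -⟩ | ⟨h, h', -⟩ | ⟨h, h', -⟩ <;>
    rcases H i' hi' with ⟨f, f', -⟩ | ⟨f, f', -⟩ | ⟨f, f', -⟩ | ⟨f, f', -⟩ <;> omega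
  iterate 2
    rcases H i hi with ⟨h, -, h', -, h'', -⟩ | ⟨h, -, h', -, h'', -⟩ | ⟨h, -, h', -, h'', -⟩ |
      ⟨h, -, h', -, h'', -⟩ <;> rcases H i' hi' with ⟨f, -, f', -, f'', -⟩ |
      ⟨f, -, f', -, f'', -⟩ | ⟨f, -, f', -, f'', -⟩ | ⟨f, -, f', -, f'', -⟩ <;> omega
  iterate 2
    rcases H i hi with ⟨h, -, -, h', -, h''⟩ | ⟨h, -, -, h', -, h''⟩ | ⟨h, -, -, h', -, h''⟩ |
      ⟨h, -, -, h', -, h''⟩ <;> rcases H i' hi' with ⟨f, -, -, f', -, f''⟩ |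
      ⟨f, -, -, f', -, f''⟩ | ⟨f, -, -, f', -, f''⟩ | ⟨f, -, -, f', -, f''⟩ <;> omega
  iterate 2
    rcases H i hi with ⟨h, -, -, -, h', -⟩ | ⟨h, -, -, -, h', -⟩ | ⟨h, -, -, -, h', -⟩ |
      ⟨h, -, -, -, h', -⟩ <;> rcases H i' hi' with ⟨f, -, -, -, f', -⟩ |
      ⟨f, -, -, -, f', -⟩ | ⟨f, -, -, -, f', -⟩ | ⟨f, -, -, -, f', -⟩ <;> omega
  · rcases H (2 * m + 0 + v) (by omega) with h | h | h | h <;> omega
  · rcases H (2 * m + 1 + v) (by omega) with h | h | h | h <;> omega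

end Pool.Agent.H.MP_ef1b96_co
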