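import Pool.Agent.H.MP_ef1b96_co.T

namespace Pool.Agent.H.MP_ef1b96_co

theorem f2 (k h p m e : ℕ) (he : e ≤ 1) (hh : h = 2 * p + e) (hk : k = h + 2 * m + e)
    (h1 : 1 ≤ m) (h2 : m < p) : V (Fin k) (Fin (k + h)) := by
  have : ∀ i < k, ∃ t a b g b' g' : ℕ,
      (i < m + e ∧ t = 2) ∧ a = i ∧
        (b < h ∧ (b + e + m = 2 * i + 1 + h ∨ b + e + m = 2 * i + 1)) ∧
        (g < h ∧ (g + e + m = i + 1 + h ∨ g + e + m = i + 1)) ∧
        b' + 3 * m + 2 * e = 2 * i + 1 + k ∧ g' + 3 * m + 2 * e = i + 1 + k ∨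
      (m + e ≤ i ∧ i < 2 * m + e ∧ t = 3) ∧
        (a < h ∧ (a + 2 * m + e = h + 1 + i ∨ a + 2 * m + e = 1 + i)) ∧
        (b < h ∧ (b + 5 * m + 3 * e = 2 + 2 * i + 2 * h ∨ b + 5 * m + 3 * e = 2 + 2 * i + h)) ∧
        g + 3 * m + 2 * e = i + 1 + h ∧
        (b' < k ∧ (b' + 3 * m + 2 * e = 2 * i + k ∨ b' + 3 * m + 2 * e = 2 * i)) ∧
        g' + 3 * m + 2 * e = i + k ∨
      (2 * m + e ≤ i ∧ i < 2 * m + 2 * e + p ∧ t = 0) ∧ a + 2 * m + e = i + 1 ∧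
        (b < h ∧ (b + 5 * m + 3 * e = 2 * i + h ∨ b + 5 * m + 3 * e = 2 * i)) ∧
        (g < h ∧ (g + 3 * m + 2 * e + 1 = i + h ∨ g + 3 * m + 2 * e + 1 = i)) ∧
        b' + 3 * m + 2 * e = 2 * i ∧
        (g' < k ∧ (g' + 3 * m + 2 * e = i + k ∨ g' + 3 * m + 2 * e = i)) ∨
      (2 * m + 2 * e + p ≤ i ∧ t = 1) ∧ a + 2 * m + e = i ∧
        (b < h ∧ (b + 5 * m + 3 * e + 1 = 2 * i ∨ b + 5 * m + 3 * e + 1 + h = 2 * i)) ∧
        g + 3 * m + 2 * e + 1 = i ∧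
        (b' < k ∧ (b' + 3 * m + 2 * e = 2 * i + 1 ∨ b' + 3 * m + 2 * e + k = 2 * i + 1)) ∧
        g' + 3 * m + 2 * e = i + 1 := by
    intro i hi
    by_cases k1 : i < m + e
    · have := mdc h (2 * i + 1 + h - (e + m))
      have := mdc h (i + 1 + h - (e + m))
      exact ⟨2, i, md h (2 * i + 1 + h - (e + m)), md h (i + 1 + h - (e + m)),
        2 * i + 1 + k - (3 * m + 2 * e), i + 1 + k - (3 * m + 2 * e), .inl (by omega)⟩
    by_cases k2 : i < 2 * m + e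
    · have := mdc h (h + 1 + i - (2 * m + e))
      have := mdc h (2 + 2 * i + 2 * h - (5 * m + 3 * e))
      have := mdc k (2 * i + k - (3 * m + 2 * e))
      exact ⟨3, md h (h + 1 + i - (2 * m + e)), md h (2 + 2 * i + 2 * h - (5 * m + 3 * e)),
        i + 1 + h - (3 * m + 2 * e), md k (2 * i + k - (3 * m + 2 * e)), i + k - (3 * m + 2 * e),
        .inr (.inl (by omega))⟩
    obtain ⟨j, rfl⟩ : ∃ j, i = 2 * m + e + j := ⟨i - (2 * m + e), by omega⟩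
    by_cases k3 : j < p + e
    · have := mdc h (2 * j + h - (m + e))
      have := mdc h (j + h - (m + e + 1))
      have := mdc k (j + k - (m + e))
      exact ⟨0, j + 1, md h (2 * j + h - (m + e)), md h (j + h - (m + e + 1)), m + 2 * j,
        md k (j + k - (m + e)), .inr (.inr (.inl (by omega)))⟩
    · have := mdc h (2 * j - (m + e + 1))
      have := mdc k (m + 2 * j + 1)
      exact ⟨1, j, md h (2 * j - (m + e + 1)), j - (m + e + 1), md k (m + 2 * j + 1),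
        j + 1 - (m + e), .inr (.inr (.inr (by omega)))⟩
  choose! t a b g b' g' H using this
  subst hh hk
  refine two _ _ (2 * p + e + m) t a b g (fun i => i) b' g' (by omega) (by omega) (fun i hi => ?_)
    (fun i hi i' hi' => ?_) (fun i hi i' hi' => ?_) (fun i hi i' hi' => ?_)
    (fun i hi i' hi' => ?_) fun v hv => ?_
  all_goals obtain rfl | rfl : e = 0 ∨ e = 1 := by omega
  all_goals try simp only [Cl]
  iterate 2 rcases H i hi with h | h | h | h <;> omega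
  iterate 2 rcases H i hi with ⟨h, h', -⟩ | ⟨h, h', -⟩ | ⟨h, h', -⟩ | ⟨h, h', -⟩ <;>
    rcases H i' hi' with ⟨f, f', -⟩ | ⟨f, f', -⟩ | ⟨f, f', -⟩ | ⟨f, f', -⟩ <;> omega
  iterate 2
    rcases H i hi with ⟨h, -, h', -, h'', -⟩ | ⟨h, -, h', -, h'', -⟩ | ⟨h, -, h', -, h'', -⟩ |
      ⟨h, -, h', -, h'', -⟩ <;> rcases H i' hi' with ⟨f, -, f', -, f'', -⟩ |
      ⟨f, -, f', -, f'', -⟩ | ⟨f, -, f', -, f'', -⟩ | ⟨f, -, f', -, f'', -⟩ <;> omega
  iterate 2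
    rcases H i hi with ⟨h, -, -, h', -, h''⟩ | ⟨h, -, -, h', -, h''⟩ | ⟨h, -, -, h', -, h''⟩ |
      ⟨h, -, -, h', -, h''⟩ <;> rcases H i' hi' with ⟨f, -, -, f', -, f''⟩ |
      ⟨f, -, -, f', -, f''⟩ | ⟨f, -, -, f', -, f''⟩ | ⟨f, -, -, f', -, f''⟩ <;> omega
  iterate 2
    rcases H i hi with ⟨h, -, -, -, h', -⟩ | ⟨h, -, -, -, h', -⟩ | ⟨h, -, -, -, h', -⟩ |
      ⟨h, -, -, -, h', -⟩ <;> rcases H i' hi' with ⟨f, -, -, -, f', -⟩ |
      ⟨f, -, -, -, f', -⟩ | ⟨f, -, -, -, f', -⟩ | ⟨f, -, -, -, f', -⟩ <;> omega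
  · have := mdc (2 * p + 0) (v + m + 1)
    refine ⟨2 * m + md (2 * p + 0) (v + m + 1), by omega, ?_⟩
    rcases H (2 * m + md (2 * p + 0) (v + m + 1)) (by omega) with h | h | h | h <;> omega
  · have := mdc (2 * p + 1) (v + m + 2)
    refine ⟨2 * m + 1 + md (2 * p + 1) (v + m + 2), by omega, ?_⟩
    rcases H (2 * m + 1 + md (2 * p + 1) (v + m + 2)) (by omega) with h | h | h | h <;> omega

end Pool.Agent.H.MP_ef1b96_co
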