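import Pool.Agent.H.MP_ef1b96_co.B

namespace Pool.Agent.H.MP_ef1b96_co
open Function Fintype Pool.Agent.H.MP_46dc5d_co Mols

theorem g4z : ∀ r i j, i ≠ j → g4 r i = 0 → g4 r j ≠ 0 := by decide +kernel

/-- Wilson's array keeps its sub-array -/
theorem wil (t u : ℕ) [NeZero t] (ht : Nat.Coprime 6 t) (hu : u ≤ t) (h : OA u) :
    ∃ (I : Type) (_ : Fintype I) (g : I → Fin 4 → (ZMod t × Fin 3) ⊕ Fin u),
      card I = card ((ZMod t × Fin 3) ⊕ Fin u) ^ 2 ∧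
      (∀ i j, i ≠ j → ∀ a b, ∃ r, g r i = a ∧ g r j = b) ∧
      ∀ r i j, i ≠ j → (g r i).isRight → (g r j).isRight → ∀ k, (g r k).isRight := by
  obtain ⟨β, J, _, _, g, h1, h2, hg⟩ := h
  let f := equivFinOfCardEq h1
  obtain ⟨ι⟩ : Nonempty (Fin u ↪ ZMod t) := Function.Embedding.nonempty_of_card_le (by simpa)
  classical
  have hc : card {y // y ∉ Set.range ι} = t - u := by
    rw [card_subtype_compl, ZMod.card]
    exact congrArg _ ((Set.card_range_of_injective ι.injective).trans (card_fin u))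
  let s : ZMod t → Fin u → Fin 4 → (ZMod t × Fin 3) ⊕ Fin u := fun z y v =>
    Fin.cases (Sum.inr y) (fun c => Sum.inl (z, c)) v
  refine ⟨(ZMod t × {y // y ∉ Set.range ι} × Fin 3 × Fin 3) ⊕ (ZMod t × Fin u × Fin 15) ⊕ J,
    inferInstance, Sum.elim
      (fun r i => Sum.inl (r.1 + (i : ℕ) * r.2.1.1, g3 r.2.2 i))
      (Sum.elim (fun r i => s (r.1 + (i : ℕ) * ι r.2.1) r.2.1 (g4 r.2.2 i))
        fun r i => Sum.inr (f (g r i))), ?_, fun i j hij a b => ?_, ?_⟩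
  · simp only [card_sum, card_prod, ZMod.card, hc, h1, h2, card_fin]
    obtain ⟨d, rfl⟩ := Nat.exists_eq_add_of_le hu
    rw [Nat.add_sub_cancel_left]
    ring
  · rcases a with ⟨x1, c1⟩ | y1 <;> rcases b with ⟨x2, c2⟩ | y2
    · obtain ⟨x, y, e1, e2⟩ := solve (R := ZMod t) 1 (i : ℕ) 1 (j : ℕ) 6
        (by exact_mod_cast (ZMod.isUnit_iff_coprime 6 t).2 ht) (by revert i j; decide) x1 x2
      simp only [Int.cast_one, one_mul, Int.cast_natCast] at e1 e2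
      by_cases hy : y ∈ Set.range ι
      · obtain ⟨y, rfl⟩ := hy
        obtain ⟨r, r1, r2⟩ := h4 i j hij c1.succ c2.succ (Or.inl c1.succ_ne_zero)
        exact ⟨Sum.inr (Sum.inl (x, y, r)), by simp [s, r1, e1], by simp [s, r2, e2]⟩
      · obtain ⟨r, r1, r2⟩ := h3 i j hij c1 c2
        exact ⟨Sum.inl (x, ⟨y, hy⟩, r), by simp [r1, e1], by simp [r2, e2]⟩
    · obtain ⟨r, r1, r2⟩ := h4 i j hij c1.succ 0 (Or.inl c1.succ_ne_zero)
      exact ⟨Sum.inr (Sum.inl (x1 - (i : ℕ) * ι y2, y2, r)), by simp [s, r1], by simp [s, r2]⟩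
    · obtain ⟨r, r1, r2⟩ := h4 i j hij 0 c2.succ (Or.inr c2.succ_ne_zero)
      exact ⟨Sum.inr (Sum.inl (x2 - (j : ℕ) * ι y1, y1, r)), by simp [s, r1], by simp [s, r2]⟩
    · obtain ⟨r, r1, r2⟩ := hg i j hij (f.symm y1) (f.symm y2)
      exact ⟨Sum.inr (Sum.inr r), by simp [r1], by simp [r2]⟩
  have hs : ∀ z y v, (s z y v).isRight → v = 0 := fun z y v =>
    Fin.cases (fun _ => rfl) (fun c h => by simp [s] at h) v
  rintro (r | r | r) i j hij e e' k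
  · simp at e
  · simp only [Sum.elim_inl, Sum.elim_inr] at e e'
    exact absurd (hs _ _ _ e') (g4z _ _ _ hij (hs _ _ _ e))
  · rfl

/-- fill the sub-square with a maximal pair -/
theorem fill {α β ρ : Type} [Finite α] [Finite β] {p q : α ⊕ β → α ⊕ β → α ⊕ β} (h : L p q)
    (hs : ∀ x y, ∃ g : Fin 4 → α ⊕ β, g 0 = x ∧ g 1 = y ∧ g 2 = p x y ∧ g 3 = q x y ∧
      ∀ i j, i ≠ j → (g i).isRight → (g j).isRight → ∀ k, (g k).isRight)
    (e : ρ → β) (he : Injective e) (hV : V ρ β) : V (α ⊕ ρ) (α ⊕ β) := by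
  obtain ⟨A, B, ⟨a1, a2, a3, a4, a5⟩, j, hj⟩ := hV
  obtain ⟨s1, s2, -⟩ := h.sq
  obtain ⟨p1, p2, p3, p4, p5⟩ := h
  have k1 : ∀ x y, (∃ a, p (.inr x) (.inl y) = .inl a) ∧ ∃ a, q (.inr x) (.inl y) = .inl a := by
    intro x y
    obtain ⟨g, g0, g1, g2, g3, hg⟩ := hs (.inr x) (.inl y)
    have := hg 0 2 (by decide) (by simp [g0])
    have := hg 0 3 (by decide) (by simp [g0])
    refine ⟨Sum.isLeft_iff.1 ?_, Sum.isLeft_iff.1 ?_⟩ <;> grind
  have k2 : ∀ x y, (∃ a, p (.inl x) (.inr y) = .inl a) ∧ ∃ a, q (.inl x) (.inr y) = .inl a := by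
    intro x y
    obtain ⟨g, g0, g1, g2, g3, hg⟩ := hs (.inl x) (.inr y)
    have := hg 1 2 (by decide) (by simp [g1])
    have := hg 1 3 (by decide) (by simp [g1])
    refine ⟨Sum.isLeft_iff.1 ?_, Sum.isLeft_iff.1 ?_⟩ <;> grind
  have k3 : ∀ x y a b, p (.inl x) y = .inr a → q (.inl x) y ≠ .inr b := by
    intro x y a b e e'
    obtain ⟨g, g0, g1, g2, g3, hg⟩ := hs (.inl x) y
    have := hg 2 3 (by decide) (by simp [g2, e]) (by simp [g3, e']) 0
    simp [g0] at this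
  have k4 : ∀ x y, (∃ a, p (.inr x) (.inr y) = .inr a) ∧ ∃ a, q (.inr x) (.inr y) = .inr a := by
    intro x y
    obtain ⟨g, g0, g1, g2, g3, hg⟩ := hs (.inr x) (.inr y)
    have := hg 0 1 (by decide) (by simp [g0]) (by simp [g1])
    exact ⟨Sum.isRight_iff.1 (g2 ▸ this 2), Sum.isRight_iff.1 (g3 ▸ this 3)⟩
  have row : ∀ {p : α ⊕ β → α ⊕ β → α ⊕ β} {A : ρ → β → β}, (∀ i, Injective (p i)) →
      (∀ i, Injective (A i)) → (∀ x y, ∃ a, p (.inr x) (.inl y) = .inl a) → ∀ i, Injective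
      (Sum.elim (fun x => p (.inl x)) (fun i => Sum.elim (fun y => p (.inr (e i)) (.inl y))
        fun y => .inr (A i y)) i) := by
    rintro p A h1 h2 h3 (i | i)
    · exact h1 _
    refine ((h1 _).comp Sum.inl_injective).sumElim (Sum.inr_injective.comp (h2 i)) fun x y k => ?_
    obtain ⟨a, ha⟩ := h3 (e i) x
    simp [ha] at k
  have col : ∀ {p : α ⊕ β → α ⊕ β → α ⊕ β} {A : ρ → β → β}, (∀ j i i', p i j = p i' j → i = i') →
      (∀ j i i', A i j = A i' j → i = i') → (∀ x y, ∃ a, p (.inl x) (.inr y) = .inl a) → ∀ j i i',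
      Sum.elim (fun x => p (.inl x)) (fun i => Sum.elim (fun y => p (.inr (e i)) (.inl y))
        fun y => .inr (A i y)) i j = Sum.elim (fun x => p (.inl x))
        (fun i => Sum.elim (fun y => p (.inr (e i)) (.inl y)) fun y => .inr (A i y)) i' j →
      i = i' := by
    rintro p A h1 h2 h3 (j | j) (i | i) (i' | i') k <;>
      simp only [Sum.elim_inl, Sum.elim_inr] at k
    · rw [Sum.inl.inj (h1 _ _ _ k)]
    · exact nomatch h1 _ _ _ k
    · exact nomatch h1 _ _ _ k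
    · rw [he (Sum.inr.inj (h1 _ _ _ k))]
    · rw [Sum.inl.inj (h1 _ _ _ k)]
    · obtain ⟨a, ha⟩ := h3 i j
      simp [ha] at k
    · obtain ⟨a, ha⟩ := h3 i' j
      simp [ha] at k
    · rw [h2 _ _ _ (Sum.inr.inj k)]
  refine ⟨_, _, ⟨row p1 a1 fun x y => (k1 x y).1, row p2 a2 fun x y => (k1 x y).2,
    col p3 a3 fun x y => (k2 x y).1, col p4 a4 fun x y => (k2 x y).2, ?_⟩, .inr j, ?_⟩
  · rintro (i | i) (i' | i') c c' k k'
    · exact congrArg _ (Sum.inl.inj (p5 _ _ _ _ k k'))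
    · rcases c' with c' | c'
      exacts [(nomatch p5 _ _ _ _ k k'), absurd k' (k3 _ _ _ _ k)]
    · rcases c with c | c
      exacts [(nomatch p5 _ _ _ _ k k'), absurd k'.symm (k3 _ _ _ _ k.symm)]
    rcases c with c | c <;> rcases c' with c' | c' <;>
      simp only [Sum.elim_inl, Sum.elim_inr] at k k'
    · rw [he (Sum.inr.inj (p5 _ _ _ _ k k'))]
    · obtain ⟨a, ha⟩ := (k1 (e i) c).1
      simp [ha] at k
    · obtain ⟨a, ha⟩ := (k1 (e i') c').1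
      simp [ha] at k
    · rw [a5 _ _ _ _ (Sum.inr.inj k) (Sum.inr.inj k')]
  rintro (a | a) b
  · obtain ⟨i | i, k⟩ := s1 (.inr j) (.inl a)
    · exact .inl ⟨.inl i, k⟩
    · obtain ⟨a, ha⟩ := (k4 i j).1
      simp [ha] at k
  rcases b with b | b
  · obtain ⟨i | i, k⟩ := s2 (.inr j) (.inl b)
    · exact .inr (.inl ⟨.inl i, k⟩)
    · obtain ⟨a, ha⟩ := (k4 i j).2
      simp [ha] at k
  rcases hj a b with ⟨i, k⟩ | ⟨i, k⟩ | ⟨i, c, k, k'⟩
  exacts [.inl ⟨.inr i, congrArg _ k⟩, .inr (.inl ⟨.inr i, congrArg _ k⟩),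
    .inr (.inr ⟨.inr i, .inr c, congrArg _ k, congrArg _ k'⟩)]

theorem hole (t u v : ℕ) (ht : t % 6 = 1 ∨ t % 6 = 5) (hu : u ≤ t) (h7 : 7 ≤ u) (hv : v ≤ u)
    (h : V (Fin v) (Fin u)) : M (Fin (3 * t + v)) (Fin (3 * t + u)) := by
  have : NeZero t := ⟨by omega⟩
  obtain ⟨I, _, g, h1, h2, h3⟩ := wil t u (by
    rw [Nat.Coprime, Nat.gcd_rec]
    rcases ht with h | h <;> rw [h] <;> rfl) hu (all u (by omega) (by omega))
  obtain ⟨p, q, hL, hp⟩ := ext g h1 h2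
  exact (fill hL (fun x y => by
    obtain ⟨r, r0, r1, r2, r3⟩ := hp x y
    exact ⟨g r, r0, r1, r2, r3, h3 r⟩) _ (Fin.castLE_injective hv) h).m.tr
    (by simp [mul_comm]) (by simp [mul_comm])

end Pool.Agent.H.MP_ef1b96_co
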