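import Pool.Agent.H.MP_ef1b96_co.U
import Pool.Agent.H.MP_ef1b96_co.U2
import Pool.Agent.H.MP_ef1b96_co.W

namespace Pool.Agent.H.MP_ef1b96_co

theorem main (n r : ℕ) (hn : 200 ≤ n) (h1 : n < 3 * r) (h2 : r < n) : M (Fin r) (Fin n) := by
  obtain ⟨s, rfl⟩ : ∃ s, n = r + s := ⟨n - r, by omega⟩
  by_cases k1 : r ≤ s
  · exact (low r s (by omega) k1 (by omega)).tr (by simp) (by simp)
  by_cases k2 : r = s + 1
  · exact (one s (by omega)).m.tr (by simp [k2]) (by simp [k2])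
  by_cases k3 : r + 1 < 2 * s
  · by_cases k : r % 2 = 0
    · exact (f2 r s (s / 2) ((r - s) / 2) (s % 2) (by omega) (by omega) (by omega) (by omega)
        (by omega)).m
    · exact (f1 r s (s / 2) ((r - s) / 2) (1 - s % 2) (by omega) (by omega) (by omega) (by omega)
        (by omega)).m
  by_cases k : r % 2 = 1
  · obtain ⟨m, rfl⟩ : ∃ m, r = 2 * m + 1 := ⟨r / 2, by omega⟩
    exact (codd _ m h2 (by omega)).m
  by_cases k4 : s = 1
  · obtain ⟨t, m, ht, h3, h4, rfl⟩ : ∃ t m, t % 6 = 1 ∧ 3 ≤ m ∧ m ≤ 11 ∧ r = 3 * t + (2 * m + 1) :=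
      ⟨(r - 10) / 18 * 6 + 1, (r - 10) % 18 / 2 + 3, by omega⟩
    subst k4
    exact hole t (2 * m + 1 + 1) (2 * m + 1) (.inl ht) (by omega) (by omega) (by omega)
      (codd _ m (by omega) (by omega))
  · exact (cevn _ r (by omega) (by omega) (by omega) (by omega)).m

end Pool.Agent.H.MP_ef1b96_co
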